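import Mathlib

/-!
# Lower bound for the spectrum of the matrix `O` of a coherent configuration (MP_d5c33c_co)
-/

namespace Pool.Agent.Results.MP_d5c33c_co.SpectrumBound

open Finset

/-- A coherent configuration on the finite set `X`, given by its colouring `col : X × X → S`.
The colours are the classes `{(x,y) | col x y = a}`, `a : S`, which are nonempty by `surj`. -/
structure CoherentConfiguration (X S : Type) [Fintype X] [DecidableEq S] where
  /-- the colour of the pair `(x, y)` -/
  col : X → X → S
  /-- every colour class is nonempty -/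
  surj : ∀ a, ∃ x y, col x y = a
  /-- (i) the diagonal is a union of colours -/
  diag : ∀ x y z, col x x = col y z → y = z
  /-- (ii) the transpose of a colour is a colour -/
  transp : ∀ a, ∃ b, ∀ x y, col x y = a ↔ col y x = b
  /-- the intersection numbers, `p a b c` stands for `p^c_{ab}` -/
  p : S → S → S → ℕ
  /-- (iii) `p^c_{ab}` counts the `z` with `(x,z) ∈ a`, `(z,y) ∈ b`, for every `(x,y) ∈ c` -/
  p_spec : ∀ a b x y, (univ.filter fun z => col x z = a ∧ col z y = b).card = p a b (col x y)

namespace CoherentConfiguration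

variable {X S : Type} [Fintype X] [DecidableEq S]

/-- a point `x` having some `y` with `(x, y) ∈ a` -/
noncomputable def src (C : CoherentConfiguration X S) (a : S) : X := (C.surj a).choose

/-- The valency `k_a = |{y | (x,y) ∈ a}|`, for a point `x` that has at least one such `y`. -/
noncomputable def valency (C : CoherentConfiguration X S) (a : S) : ℕ :=
  (univ.filter fun y => C.col (C.src a) y = a).card

/-- `∇^c_{ab} = sqrt (k_c / (k_a k_b)) * p^c_{ab}`. -/
noncomputable def nabla (C : CoherentConfiguration X S) (c a b : S) : ℝ :=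
  Real.sqrt ((C.valency c : ℝ) / ((C.valency a : ℝ) * (C.valency b : ℝ))) * (C.p a b c : ℝ)

/-- The matrix `O = ∇ ∇ᵀ`. -/
noncomputable def O [Fintype S] (C : CoherentConfiguration X S) : Matrix S S ℝ :=
  fun a b => ∑ p, ∑ q, C.nabla a p q * C.nabla b p q

variable (C : CoherentConfiguration X S)

lemma src_spec (a : S) : ∃ y, C.col (C.src a) y = a := (C.surj a).choose_spec

lemma diag_of {x y x' y' : X} (h : C.col x y = C.col x' y') : C.col x x = C.col x' x' := by
  have h1 := C.p_spec (C.col x x) (C.col x y) x y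
  have h2 := C.p_spec (C.col x x) (C.col x y) x' y'
  rw [← h] at h2
  rw [← h2] at h1
  have h3 : 0 < (univ.filter fun z => C.col x' z = C.col x x ∧ C.col z y' = C.col x y).card := by
    rw [← h1, Finset.card_pos]
    exact ⟨x, by simp⟩
  rw [Finset.card_pos] at h3
  obtain ⟨z, hz⟩ := h3
  rw [Finset.mem_filter] at hz
  have h4 := C.diag x x' z hz.2.1.symm
  rw [← h4] at hz
  exact hz.2.1.symm

lemma row_card {x x' : X} (h : C.col x x = C.col x' x') (a : S) :
    (univ.filter fun y => C.col x y = a).card = (univ.filter fun y => C.col x' y = a).card := by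
  obtain ⟨b, hb⟩ := C.transp a
  have h1 : ∀ x, (univ.filter fun y => C.col x y = a)
      = univ.filter fun y => C.col x y = a ∧ C.col y x = b := by
    intro x
    apply Finset.filter_congr
    intro y _
    constructor
    · intro hy
      exact ⟨hy, (hb x y).mp hy⟩
    · exact fun hy => hy.1
  rw [h1 x, h1 x', C.p_spec, C.p_spec, h]

/-- The valency does not depend on the chosen point. -/
lemma valency_eq {x y : X} {a : S} (h : C.col x y = a) :
    (univ.filter fun z => C.col x z = a).card = C.valency a := by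
  obtain ⟨y', hy'⟩ := C.src_spec a
  exact C.row_card (C.diag_of (h.trans hy'.symm)) a

lemma valency_pos (a : S) : 0 < C.valency a := by
  obtain ⟨y', hy'⟩ := C.src_spec a
  unfold valency
  rw [Finset.card_pos]
  exact ⟨y', by simp [hy']⟩

/-- The triple count. -/
lemma triple_count {w t : X} (a q : S) :
    C.valency (C.col w t) * (univ.filter fun y => C.col w y = a ∧ C.col t y = q).card
      = C.valency a * C.p (C.col w t) q a := by
  classical
  obtain ⟨q', hq'⟩ := C.transp q
  -- count the pairs (t', y)
  have hL : ((univ : Finset (X × X)).filter fun z =>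
      C.col w z.1 = C.col w t ∧ C.col z.1 z.2 = q ∧ C.col w z.2 = a).card
      = C.valency (C.col w t) * (univ.filter fun y => C.col w y = a ∧ C.col t y = q).card := by
    rw [← C.valency_eq (x := w) (y := t) rfl]
    have h1 : ∀ t', C.col w t' = C.col w t →
        (univ.filter fun y => C.col w y = a ∧ C.col t' y = q).card =
        (univ.filter fun y => C.col w y = a ∧ C.col t y = q).card := by
      intro t' ht'
      have h2 : ∀ s, (univ.filter fun y => C.col w y = a ∧ C.col s y = q)
        = (univ.filter fun y => C.col w y = a ∧ C.col y s = q') := by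
        intro s
        apply Finset.filter_congr
        intro y _
        rw [hq']
      rw [h2, h2, C.p_spec, C.p_spec, ht']
    rw [Finset.card_eq_sum_ones, Finset.sum_filter, Fintype.sum_prod_type, ← smul_eq_mul,
      ← Finset.sum_const, Finset.sum_filter]
    apply Finset.sum_congr rfl
    intro t' _
    by_cases ht' : C.col w t' = C.col w t
    · rw [if_pos ht', ← h1 t' ht', Finset.card_eq_sum_ones, Finset.sum_filter]
      apply Finset.sum_congr rfl
      intro y _
      simp only [ht', true_and]
      by_cases h3 : C.col t' y = q <;> by_cases h4 : C.col w y = a <;> simp [h3, h4]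
    · rw [if_neg ht']
      simp [ht']
  have hR : ((univ : Finset (X × X)).filter fun z =>
      C.col w z.1 = C.col w t ∧ C.col z.1 z.2 = q ∧ C.col w z.2 = a).card
      = (univ.filter fun y => C.col w y = a).card * C.p (C.col w t) q a := by
    rw [Finset.card_eq_sum_ones, Finset.sum_filter, Fintype.sum_prod_type, Finset.sum_comm,
      ← smul_eq_mul, ← Finset.sum_const, Finset.sum_filter]
    apply Finset.sum_congr rfl
    intro y _
    by_cases hy : C.col w y = a
    · rw [if_pos hy, ← hy, ← C.p_spec, Finset.card_eq_sum_ones, Finset.sum_filter]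
      apply Finset.sum_congr rfl
      intro t' _
      simp
    · rw [if_neg hy]
      simp [hy]
  rw [← hL, hR]
  by_cases hy : ∃ y, C.col w y = a
  · obtain ⟨y, hy⟩ := hy
    rw [C.valency_eq hy]
  · have h0 : C.p (C.col w t) q a = 0 := by
      by_contra hne
      obtain ⟨y, hy'⟩ := C.src_spec a
      have h5 := C.p_spec (C.col w t) q (C.src a) y
      rw [hy'] at h5
      have h6 : 0 < (univ.filter fun z => C.col (C.src a) z = C.col w t ∧ C.col z y = q).card := by
        rw [h5]; omega
      rw [Finset.card_pos] at h6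
      obtain ⟨z, hz⟩ := h6
      rw [Finset.mem_filter] at hz
      have h7 := C.row_card (C.diag_of hz.2.1) a
      have h8 := C.valency_pos a
      unfold valency at h8
      rw [h7, Finset.card_pos] at h8
      obtain ⟨y2, hy2⟩ := h8
      rw [Finset.mem_filter] at hy2
      exact hy ⟨y2, hy2.2⟩
    rw [h0]
    simp

/-- Sum over composable triples with fixed endpoints. -/
lemma sum_p_mul [Fintype S] (G : S → S → ℝ) (w z : X) :
    ∑ p, ∑ q, (C.p p q (C.col w z) : ℝ) * G p q = ∑ t, G (C.col w t) (C.col t z) := by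
  have h1 : ∀ p q, (C.p p q (C.col w z) : ℝ) * G p q
      = ∑ t, if C.col w t = p ∧ C.col t z = q then G p q else 0 := by
    intro p q
    rw [← C.p_spec, ← Finset.sum_filter, Finset.sum_const, nsmul_eq_mul]
  simp_rw [h1]
  rw [Finset.sum_congr rfl (fun p _ => Finset.sum_comm), Finset.sum_comm]
  apply Finset.sum_congr rfl
  intro t _
  rw [Finset.sum_eq_single (C.col w t)]
  · rw [Finset.sum_eq_single (C.col t z)]
    · simp
    · intro q _ hq
      rw [if_neg]
      exact fun h => hq h.2.symm
    · simp
  · intro p _ hp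
    apply Finset.sum_eq_zero
    intro q _
    rw [if_neg]
    exact fun h => hp h.1.symm
  · simp

lemma O_apply [Fintype S] (b a : S) :
    C.O b a = Real.sqrt (C.valency b) * ∑ p, ∑ q, (C.p p q b : ℝ) *
      (Real.sqrt (C.valency a) * (C.p p q a : ℝ) / ((C.valency p : ℝ) * (C.valency q : ℝ))) := by
  unfold O nabla
  rw [Finset.mul_sum]
  apply Finset.sum_congr rfl
  intro p _
  rw [Finset.mul_sum]
  apply Finset.sum_congr rfl
  intro q _
  have hp : (0 : ℝ) < C.valency p := by exact_mod_cast C.valency_pos p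
  have hq : (0 : ℝ) < C.valency q := by exact_mod_cast C.valency_pos q
  have hpq : (0 : ℝ) < (C.valency p : ℝ) * (C.valency q : ℝ) := mul_pos hp hq
  rw [Real.sqrt_div (Nat.cast_nonneg _), Real.sqrt_div (Nat.cast_nonneg _)]
  have hs : Real.sqrt ((C.valency p : ℝ) * (C.valency q : ℝ)) *
      Real.sqrt ((C.valency p : ℝ) * (C.valency q : ℝ)) = (C.valency p : ℝ) * (C.valency q : ℝ) :=
    Real.mul_self_sqrt hpq.le
  have hs0 : Real.sqrt ((C.valency p : ℝ) * (C.valency q : ℝ)) ≠ 0 := by
    rw [Real.sqrt_ne_zero']; exact hpq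
  generalize Real.sqrt ((C.valency p : ℝ) * (C.valency q : ℝ)) = r at hs hs0
  rw [← hs]
  field_simp

/-- The vector attached to `u` and the row `w`. -/
noncomputable def vec (u : S → ℝ) (w y : X) : ℝ :=
  u (C.col w y) / Real.sqrt (C.valency (C.col w y))

lemma G_eq [Fintype S] (u : S → ℝ) (w t : X) (q : S) :
    ∑ a, Real.sqrt (C.valency a) * (C.p (C.col w t) q a : ℝ) /
      ((C.valency (C.col w t) : ℝ) * (C.valency q : ℝ)) * u a
    = (1 / (C.valency q : ℝ)) * ∑ y ∈ univ.filter (fun y => C.col t y = q), C.vec u w y := by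
  have h1 : ∑ y ∈ univ.filter (fun y => C.col t y = q), C.vec u w y
      = ∑ a, ((univ.filter fun y => C.col w y = a ∧ C.col t y = q).card : ℝ) *
        (u a / Real.sqrt (C.valency a)) := by
    rw [← Finset.sum_fiberwise (univ.filter fun y => C.col t y = q) (fun y => C.col w y)]
    apply Finset.sum_congr rfl
    intro a _
    rw [← nsmul_eq_mul, ← Finset.sum_const, Finset.filter_filter]
    have h2 : (univ.filter fun y => C.col t y = q ∧ C.col w y = a)
        = (univ.filter fun y => C.col w y = a ∧ C.col t y = q) := by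
      apply Finset.filter_congr
      intro y _
      exact and_comm
    rw [h2]
    apply Finset.sum_congr rfl
    intro y hy
    rw [Finset.mem_filter] at hy
    unfold vec
    rw [hy.2.1]
  rw [h1, Finset.mul_sum]
  apply Finset.sum_congr rfl
  intro a _
  have h3 : (C.valency (C.col w t) : ℝ) *
      ((univ.filter fun y => C.col w y = a ∧ C.col t y = q).card : ℝ)
      = C.valency a * C.p (C.col w t) q a := by
    exact_mod_cast C.triple_count a q
  have hp : (0 : ℝ) < C.valency (C.col w t) := by exact_mod_cast C.valency_pos _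
  have hq : (0 : ℝ) < C.valency q := by exact_mod_cast C.valency_pos q
  have ha : (0 : ℝ) < C.valency a := by exact_mod_cast C.valency_pos a
  have hsa : 0 < Real.sqrt (C.valency a) := Real.sqrt_pos.mpr ha
  have h4 : ((univ.filter fun y => C.col w y = a ∧ C.col t y = q).card : ℝ)
      = C.valency a * C.p (C.col w t) q a / C.valency (C.col w t) := by
    rw [eq_div_iff hp.ne', mul_comm]
    exact h3
  rw [h4]
  have hs : (C.valency a : ℝ) = Real.sqrt (C.valency a) * Real.sqrt (C.valency a) :=
    (Real.mul_self_sqrt ha.le).symm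
  field_simp
  rw [Real.sq_sqrt ha.le]
  ring

/-- The key equation `v K = λ v`. -/
lemma key [Fintype S] (u : S → ℝ) (lam : ℝ) (hu : ∀ b, ∑ a, C.O b a * u a = lam * u b)
    (w z : X) :
    ∑ t, (1 / (C.valency (C.col t z) : ℝ)) *
      ∑ y ∈ univ.filter (fun y => C.col t y = C.col t z), C.vec u w y = lam * C.vec u w z := by
  have hb : (0 : ℝ) < C.valency (C.col w z) := by exact_mod_cast C.valency_pos _
  have hsb : 0 < Real.sqrt (C.valency (C.col w z)) := Real.sqrt_pos.mpr hb
  have h1 : lam * C.vec u w z
      = (∑ a, C.O (C.col w z) a * u a) / Real.sqrt (C.valency (C.col w z)) := by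
    rw [hu]; unfold vec; ring
  rw [h1, eq_div_iff hsb.ne']
  have h2 : ∑ a, C.O (C.col w z) a * u a
      = Real.sqrt (C.valency (C.col w z)) * ∑ p, ∑ q, (C.p p q (C.col w z) : ℝ) *
        ∑ a, Real.sqrt (C.valency a) * (C.p p q a : ℝ) /
          ((C.valency p : ℝ) * (C.valency q : ℝ)) * u a := by
    simp_rw [C.O_apply, Finset.mul_sum, Finset.sum_mul]
    rw [Finset.sum_comm]
    apply Finset.sum_congr rfl
    intro p _
    rw [Finset.sum_comm]
    apply Finset.sum_congr rfl
    intro q _
    apply Finset.sum_congr rfl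
    intro a _
    ring
  rw [h2, C.sum_p_mul (fun p q => ∑ a, Real.sqrt (C.valency a) * (C.p p q a : ℝ) /
          ((C.valency p : ℝ) * (C.valency q : ℝ)) * u a) w z, mul_comm]
  congr 1
  apply Finset.sum_congr rfl
  intro t _
  rw [C.G_eq]

/-- the quadratic form of `K`. -/
lemma quad [Fintype S] (v : X → ℝ) :
    ∑ z, (∑ t, (1 / (C.valency (C.col t z) : ℝ)) *
      ∑ y ∈ univ.filter (fun y => C.col t y = C.col t z), v y) * v z
    = ∑ t, ∑ q, (∑ y ∈ univ.filter (fun y => C.col t y = q), v y) ^ 2 / (C.valency q : ℝ) := by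
  simp_rw [Finset.sum_mul]
  rw [Finset.sum_comm]
  apply Finset.sum_congr rfl
  intro t _
  rw [← Finset.sum_fiberwise univ (fun z => C.col t z)]
  apply Finset.sum_congr rfl
  intro q _
  rw [pow_two]
  have h1 : ∀ z ∈ univ.filter (fun y => C.col t y = q),
      (1 / (C.valency (C.col t z) : ℝ)) *
      (∑ y ∈ univ.filter (fun y => C.col t y = C.col t z), v y) * v z
      = (1 / (C.valency q : ℝ)) * (∑ y ∈ univ.filter (fun y => C.col t y = q), v y) * v z := by
    intro z hz
    rw [Finset.mem_filter] at hz
    rw [hz.2]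
  rw [Finset.sum_congr rfl h1, ← Finset.mul_sum]
  ring

lemma row_bound [Fintype S] [DecidableEq X] (hn : 2 ≤ Fintype.card X) (v : X → ℝ) (t : X) :
    v t ^ 2 + (∑ y, v y - v t) ^ 2 / ((Fintype.card X : ℝ) - 1)
    ≤ ∑ q, (∑ y ∈ univ.filter (fun y => C.col t y = q), v y) ^ 2 / (C.valency q : ℝ) := by
  set V : S → ℝ := fun q => ∑ y ∈ univ.filter (fun y => C.col t y = q), v y with hV
  set s : Finset S := (univ.erase t).image (fun y => C.col t y) with hs
  have hq0 : C.col t t ∉ s := by
    rw [hs, Finset.mem_image]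
    rintro ⟨y, hy, hyt⟩
    have := C.diag t t y hyt.symm
    exact (Finset.ne_of_mem_erase hy) this.symm
  have hcard : ∀ q ∈ s, (univ.filter fun y => C.col t y = q).card = C.valency q := by
    intro q hq
    rw [hs, Finset.mem_image] at hq
    obtain ⟨y, _, hy⟩ := hq
    exact C.valency_eq hy
  have hfil : univ.filter (fun y => C.col t y = C.col t t) = {t} := by
    ext y
    simp only [Finset.mem_filter, Finset.mem_univ, true_and, Finset.mem_singleton]
    constructor
    · intro h
      exact (C.diag t t y h.symm).symm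
    · rintro rfl; rfl
  have hVt : V (C.col t t) = v t := by
    rw [hV]; simp only; rw [hfil]; simp
  have hkt : C.valency (C.col t t) = 1 := by
    rw [← C.valency_eq (x := t) (y := t) rfl, hfil]; simp
  -- Sum of the `V q` over `s`
  have hmaps : ∀ y ∈ univ.erase t, C.col t y ∈ s := by
    intro y hy
    rw [hs]
    exact Finset.mem_image_of_mem _ hy
  have hfib : ∀ q ∈ s, (univ.erase t).filter (fun y => C.col t y = q)
      = univ.filter (fun y => C.col t y = q) := by
    intro q hq
    ext y
    simp only [Finset.mem_filter, Finset.mem_erase, Finset.mem_univ, true_and, and_true]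
    constructor
    · exact fun h => h.2
    · intro h
      refine ⟨?_, h⟩
      rintro rfl
      rw [← h] at hq
      exact hq0 hq
  have hsumV : ∑ q ∈ s, V q = ∑ y, v y - v t := by
    have h1 := Finset.sum_fiberwise_of_maps_to (f := v) hmaps
    rw [Finset.sum_congr rfl (fun q hq => by rw [hfib q hq])] at h1
    have h2 : ∑ y ∈ univ.erase t, v y + v t = ∑ y, v y :=
      Finset.sum_erase_add _ _ (Finset.mem_univ t)
    rw [hV]
    simp only
    rw [h1]
    linarith
  have hsumk : ∑ q ∈ s, (C.valency q : ℝ) = (Fintype.card X : ℝ) - 1 := by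
    have h1 := Finset.card_eq_sum_card_fiberwise (f := fun y => C.col t y) hmaps
    rw [Finset.sum_congr rfl (fun q hq => by rw [hfib q hq, hcard q hq])] at h1
    rw [Finset.card_erase_of_mem (Finset.mem_univ t), Finset.card_univ] at h1
    have h2 : ((Fintype.card X - 1 : ℕ) : ℝ) = ((∑ q ∈ s, C.valency q : ℕ) : ℝ) := by
      exact_mod_cast congrArg (Nat.cast (R := ℝ)) h1
    rw [Nat.cast_sub (by omega)] at h2
    push_cast at h2
    exact h2.symm
  have hcs : (∑ q ∈ s, V q) ^ 2 / ∑ q ∈ s, (C.valency q : ℝ)
      ≤ ∑ q ∈ s, V q ^ 2 / (C.valency q : ℝ) := by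
    apply Finset.sq_sum_div_le_sum_sq_div
    intro q _
    exact_mod_cast C.valency_pos q
  rw [hsumV, hsumk] at hcs
  have hsub : ∑ q ∈ insert (C.col t t) s, V q ^ 2 / (C.valency q : ℝ)
      ≤ ∑ q, V q ^ 2 / (C.valency q : ℝ) := by
    apply Finset.sum_le_sum_of_subset_of_nonneg (Finset.subset_univ _)
    intro q _ _
    positivity
  rw [Finset.sum_insert hq0, hVt, hkt] at hsub
  have : v t ^ 2 / ((1 : ℕ) : ℝ) = v t ^ 2 := by simp
  rw [this] at hsub
  linarith

/-- `K ≥ n / (n - 1)`. -/
lemma quad_bound [Fintype S] [DecidableEq X] (hn : 2 ≤ Fintype.card X) (v : X → ℝ) :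
    (Fintype.card X : ℝ) / ((Fintype.card X : ℝ) - 1) * ∑ y, v y ^ 2
    ≤ ∑ t, ∑ q, (∑ y ∈ univ.filter (fun y => C.col t y = q), v y) ^ 2 / (C.valency q : ℝ) := by
  have h1 := Finset.sum_le_sum (fun t (_ : t ∈ (univ : Finset X)) => C.row_bound hn v t)
  refine le_trans ?_ h1
  have hn' : (2 : ℝ) ≤ Fintype.card X := by exact_mod_cast hn
  have hpos : (0 : ℝ) < (Fintype.card X : ℝ) - 1 := by linarith
  rw [Finset.sum_add_distrib, ← Finset.sum_div]
  have h2 : ∑ t, (∑ y, v y - v t) ^ 2
      = ((Fintype.card X : ℝ) - 2) * (∑ y, v y) ^ 2 + ∑ y, v y ^ 2 := by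
    simp_rw [sub_sq]
    rw [Finset.sum_add_distrib, Finset.sum_sub_distrib, Finset.sum_const, Finset.card_univ,
      ← Finset.mul_sum, nsmul_eq_mul]
    ring
  rw [h2]
  have h3 : (Fintype.card X : ℝ) / ((Fintype.card X : ℝ) - 1) * ∑ y, v y ^ 2
      = ∑ y, v y ^ 2 + (∑ y, v y ^ 2) / ((Fintype.card X : ℝ) - 1) := by
    field_simp
    ring
  rw [h3]
  have h4 : (∑ y, v y ^ 2) / ((Fintype.card X : ℝ) - 1)
      ≤ (((Fintype.card X : ℝ) - 2) * (∑ y, v y) ^ 2 + ∑ y, v y ^ 2) /
        ((Fintype.card X : ℝ) - 1) := by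
    apply div_le_div_of_nonneg_right _ hpos.le
    have : 0 ≤ ((Fintype.card X : ℝ) - 2) * (∑ y, v y) ^ 2 :=
      mul_nonneg (by linarith) (sq_nonneg _)
    linarith
  linarith

end CoherentConfiguration

/-- **Answer to MP_d5c33c_co (proved).**  Every eigenvalue of the matrix `O` of a coherent
configuration on `n ≥ 2` points is at least `n / (n - 1)`. -/
theorem result {X S : Type} [Fintype X] [Fintype S] [DecidableEq S]
    (C : CoherentConfiguration X S) (hn : 2 ≤ Fintype.card X) (lam : ℝ)
    (h : Module.End.HasEigenvalue (Matrix.toLin' C.O) lam) :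
    (Fintype.card X : ℝ) / ((Fintype.card X : ℝ) - 1) ≤ lam := by
  classical
  obtain ⟨u, hu⟩ := h.exists_hasEigenvector
  have hu1 : ∀ b, ∑ a, C.O b a * u a = lam * u b := by
    intro b
    have h1 := congrFun hu.apply_eq_smul b
    simpa [Matrix.toLin'_apply, Matrix.mulVec, dotProduct] using h1
  have hu0 : u ≠ 0 := hu.2
  obtain ⟨a, ha⟩ : ∃ a, u a ≠ 0 := by
    by_contra hcon
    push Not at hcon
    exact hu0 (funext hcon)
  obtain ⟨y, hy⟩ := C.src_spec a
  have hpos : 0 < ∑ z, C.vec u (C.src a) z ^ 2 := by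
    apply Finset.sum_pos' (fun z _ => sq_nonneg _)
    refine ⟨y, Finset.mem_univ _, ?_⟩
    have : C.vec u (C.src a) y ≠ 0 := by
      unfold CoherentConfiguration.vec
      rw [hy]
      apply div_ne_zero ha
      have := C.valency_pos a
      rw [Real.sqrt_ne_zero']
      exact_mod_cast this
    positivity
  have h1 := C.quad (C.vec u (C.src a))
  have h2 := C.quad_bound hn (C.vec u (C.src a))
  have h4 : ∀ z, ∑ t, (1 / (C.valency (C.col t z) : ℝ)) *
      ∑ y ∈ univ.filter (fun y => C.col t y = C.col t z), C.vec u (C.src a) y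
      = lam * C.vec u (C.src a) z := fun z => C.key u lam hu1 (C.src a) z
  rw [← h1] at h2
  simp_rw [h4] at h2
  have h3 : ∑ z, lam * C.vec u (C.src a) z * C.vec u (C.src a) z
      = lam * ∑ z, C.vec u (C.src a) z ^ 2 := by
    rw [Finset.mul_sum]
    apply Finset.sum_congr rfl
    intro z _
    ring
  rw [h3] at h2
  exact le_of_mul_le_mul_right h2 hpos

end Pool.Agent.Results.MP_d5c33c_co.SpectrumBound
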